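import Pool.Agent.J6H68.Kusner.Defs

open MeasureTheory Set Metric
open scoped ENNReal ContDiff NNReal

namespace Pool.Agent.J6H68.Kusner

/-- The Hausdorff measure of the unit sphere. -/
noncomputable def unitArea : ℝ≥0∞ := μH[2] (sphere (0 : E3) 1)

lemma homothety_sphere (a : E3) (r : ℝ) (hr : 0 < r) :
    (fun x : E3 => a + r • x) '' sphere (0 : E3) 1 = sphere a r := by
  ext y
  simp only [mem_image, mem_sphere_iff_norm, sub_zero]
  constructor
  · rintro ⟨x, hx, rfl⟩
    rw [add_sub_cancel_left, norm_smul, hx, Real.norm_of_nonneg hr.le, mul_one]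
  · intro hy
    refine ⟨r⁻¹ • (y - a), ?_, ?_⟩
    · rw [norm_smul, hy, Real.norm_of_nonneg (inv_nonneg.2 hr.le), inv_mul_cancel₀ hr.ne']
    · rw [smul_smul, mul_inv_cancel₀ hr.ne', one_smul]
      abel

lemma area_sphere (a : E3) (r : ℝ) (hr : 0 < r) :
    μH[2] (sphere a r) = ENNReal.ofReal (r ^ 2) * unitArea := by
  have h1 : (fun x : E3 => a + r • x) '' sphere (0 : E3) 1 =
      (IsometryEquiv.addLeft a) '' ((r • ·) '' sphere (0 : E3) 1) := by
    rw [image_image]
    rfl
  rw [← homothety_sphere a r hr, h1, IsometryEquiv.hausdorffMeasure_image, Set.image_smul,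
    Measure.hausdorffMeasure_smul₀ (by norm_num) hr.ne', unitArea, ENNReal.smul_def, smul_eq_mul]
  congr 1
  rw [ENNReal.ofReal, ENNReal.coe_inj]
  ext
  rw [NNReal.coe_rpow, coe_nnnorm, Real.norm_of_nonneg hr.le, Real.coe_toNNReal _ (by positivity)]
  norm_cast

/-- Two-dimensional Hausdorff measure on the coordinate plane with the sup norm is area. -/
lemma hausdorff_pi2 : (μH[2] : Measure (Fin 2 → ℝ)) = volume := by
  have := @hausdorffMeasure_pi_real (Fin 2) _
  simpa using this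

/-- Spherical coordinates. -/
noncomputable def par (p : Fin 2 → ℝ) : E3 :=
  !₂[Real.sin (p 0) * Real.cos (p 1), Real.sin (p 0) * Real.sin (p 1), Real.cos (p 0)]

lemma abs_sin_sub_le (a b : ℝ) : |Real.sin a - Real.sin b| ≤ |a - b| := by
  have := Real.lipschitzWith_sin.dist_le_mul a b
  simpa [Real.dist_eq] using this

lemma abs_cos_sub_le (a b : ℝ) : |Real.cos a - Real.cos b| ≤ |a - b| := by
  have := Real.lipschitzWith_cos.dist_le_mul a b
  simpa [Real.dist_eq] using this

lemma abs_mul_sub_mul_le {a b c d : ℝ} (hb : |b| ≤ 1) (hc : |c| ≤ 1) :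
    |a * b - c * d| ≤ |a - c| + |b - d| := by
  have : a * b - c * d = (a - c) * b + c * (b - d) := by ring
  rw [this]
  refine (abs_add_le _ _).trans ?_
  rw [abs_mul, abs_mul]
  have h1 : |a - c| * |b| ≤ |a - c| * 1 := mul_le_mul_of_nonneg_left hb (abs_nonneg _)
  have h2 : |c| * |b - d| ≤ 1 * |b - d| := mul_le_mul_of_nonneg_right hc (abs_nonneg _)
  linarith

lemma par_lipschitz : LipschitzWith 4 par := by
  apply LipschitzWith.of_dist_le_mul
  intro p q
  have h0 : |p 0 - q 0| ≤ dist p q := by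
    have := dist_le_pi_dist p q 0
    rwa [Real.dist_eq] at this
  have h1 : |p 1 - q 1| ≤ dist p q := by
    have := dist_le_pi_dist p q 1
    rwa [Real.dist_eq] at this
  set D := dist p q with hD
  have hD0 : 0 ≤ D := dist_nonneg
  rw [EuclideanSpace.dist_eq]
  have e0 : |Real.sin (p 0) * Real.cos (p 1) - Real.sin (q 0) * Real.cos (q 1)| ≤ 2 * D := by
    refine (abs_mul_sub_mul_le (Real.abs_cos_le_one _) (Real.abs_sin_le_one _)).trans ?_
    have := abs_sin_sub_le (p 0) (q 0)
    have := abs_cos_sub_le (p 1) (q 1)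
    linarith
  have e1 : |Real.sin (p 0) * Real.sin (p 1) - Real.sin (q 0) * Real.sin (q 1)| ≤ 2 * D := by
    refine (abs_mul_sub_mul_le (Real.abs_sin_le_one _) (Real.abs_sin_le_one _)).trans ?_
    have := abs_sin_sub_le (p 0) (q 0)
    have := abs_sin_sub_le (p 1) (q 1)
    linarith
  have e2 : |Real.cos (p 0) - Real.cos (q 0)| ≤ D := (abs_cos_sub_le _ _).trans h0
  rw [Real.sqrt_le_left (by positivity)]
  simp only [Fin.sum_univ_three, Real.dist_eq, sq_abs, NNReal.coe_ofNat]
  have f0 : (par p 0 - par q 0) ^ 2 ≤ (2 * D) ^ 2 := by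
    rw [← sq_abs (par p 0 - par q 0)]
    exact pow_le_pow_left₀ (abs_nonneg _) (by simpa [par] using e0) 2
  have f1 : (par p 1 - par q 1) ^ 2 ≤ (2 * D) ^ 2 := by
    rw [← sq_abs (par p 1 - par q 1)]
    exact pow_le_pow_left₀ (abs_nonneg _) (by simpa [par] using e1) 2
  have f2 : (par p 2 - par q 2) ^ 2 ≤ D ^ 2 := by
    rw [← sq_abs (par p 2 - par q 2)]
    exact pow_le_pow_left₀ (abs_nonneg _) (by simpa [par] using e2) 2
  nlinarith [sq_nonneg D]

lemma sphere_subset_par :
    sphere (0 : E3) 1 ⊆ par '' (Icc (fun _ => -4 : Fin 2 → ℝ) (fun _ => 4)) := by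
  intro x hx
  rw [mem_sphere_iff_norm, sub_zero, EuclideanSpace.norm_eq, Real.sqrt_eq_one,
    Fin.sum_univ_three] at hx
  simp only [Real.norm_eq_abs, sq_abs] at hx
  set w : ℂ := ⟨x 0, x 1⟩ with hw
  have hwn : ‖w‖ = Real.sqrt (1 - x 2 ^ 2) := by
    rw [Complex.norm_def, Complex.normSq_apply]
    congr 1
    simp only [hw]
    linarith
  have hz : -1 ≤ x 2 ∧ x 2 ≤ 1 := by
    constructor <;> nlinarith [sq_nonneg (x 0), sq_nonneg (x 1)]
  refine ⟨![Real.arccos (x 2), Complex.arg w], ?_, ?_⟩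
  · have hpi := Real.pi_lt_four
    have a0 := Real.arccos_nonneg (x 2)
    have a1 := Real.arccos_le_pi (x 2)
    have a2 := Complex.neg_pi_lt_arg w
    have a3 := Complex.arg_le_pi w
    have := Real.pi_pos
    constructor
    · intro i
      fin_cases i
      · simp; linarith
      · simp; linarith
    · intro i
      fin_cases i
      · simp; linarith
      · simp; linarith
  · have hs : Real.sin (Real.arccos (x 2)) = ‖w‖ := by rw [Real.sin_arccos, hwn]
    ext i
    fin_cases i
    · simp [par, hs, hw]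
    · simp [par, hs, hw]
    · simp [par]
      exact Real.cos_arccos hz.1 hz.2

lemma unitArea_lt_top : unitArea < ⊤ := by
  have h1 : unitArea ≤ μH[2] (par '' (Icc (fun _ => -4 : Fin 2 → ℝ) (fun _ => 4))) :=
    measure_mono sphere_subset_par
  have h2 := par_lipschitz.hausdorffMeasure_image_le (d := 2) (by norm_num)
    (Icc (fun _ => -4 : Fin 2 → ℝ) (fun _ => 4))
  refine lt_of_le_of_lt (h1.trans h2) ?_
  rw [hausdorff_pi2]
  refine ENNReal.mul_lt_top ?_ ?_
  · exact ENNReal.rpow_lt_top_of_nonneg (by norm_num) (by simp)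
  · rw [Real.volume_Icc_pi]
    simp

/-- The projection to the first two coordinates. -/
def proj (x : E3) : Fin 2 → ℝ := ![x 0, x 1]

lemma proj_lipschitz : LipschitzWith 1 proj := by
  apply LipschitzWith.of_dist_le_mul
  intro x y
  rw [NNReal.coe_one, one_mul, dist_pi_le_iff dist_nonneg]
  have key : ∀ i : Fin 3, dist (x i) (y i) ≤ dist x y := by
    intro i
    rw [EuclideanSpace.dist_eq]
    apply Real.le_sqrt_of_sq_le
    exact Finset.single_le_sum (f := fun i => dist (x i) (y i) ^ 2)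
      (fun j _ => sq_nonneg _) (Finset.mem_univ i)
  intro i
  fin_cases i
  · simpa [proj] using key 0
  · simpa [proj] using key 1

lemma square_subset_proj :
    Icc (fun _ => -(1 / 2) : Fin 2 → ℝ) (fun _ => 1 / 2) ⊆ proj '' sphere (0 : E3) 1 := by
  intro v hv
  have h0 := hv.1 0
  have h0' := hv.2 0
  have h1 := hv.1 1
  have h1' := hv.2 1
  have hnn : 0 ≤ 1 - v 0 ^ 2 - v 1 ^ 2 := by nlinarith
  refine ⟨!₂[v 0, v 1, Real.sqrt (1 - v 0 ^ 2 - v 1 ^ 2)], ?_, ?_⟩
  · rw [mem_sphere_iff_norm, sub_zero, EuclideanSpace.norm_eq, Real.sqrt_eq_one,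
      Fin.sum_univ_three]
    simp only [Real.norm_eq_abs, sq_abs]
    simp [Real.sq_sqrt hnn]
  · ext i
    fin_cases i <;> simp [proj]

lemma unitArea_pos : 0 < unitArea := by
  have h2 := proj_lipschitz.hausdorffMeasure_image_le (d := 2) (by norm_num)
    (sphere (0 : E3) 1)
  have h3 : (μH[2] : Measure (Fin 2 → ℝ)) (Icc (fun _ => -(1 / 2) : Fin 2 → ℝ) (fun _ => 1 / 2)) ≤
      μH[2] (proj '' sphere (0 : E3) 1) := measure_mono square_subset_proj
  have h4 := h3.trans h2
  rw [hausdorff_pi2, Real.volume_Icc_pi] at h4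
  have e1 : ∏ i : Fin 2, ENNReal.ofReal ((fun _ => 1 / 2 : Fin 2 → ℝ) i -
      (fun _ => -(1 / 2) : Fin 2 → ℝ) i) = 1 := by
    have : (1 / 2 : ℝ) - -(1 / 2) = 1 := by norm_num
    simp only [this]
    simp
  have h5 : (1 : ℝ≥0∞) ≤ unitArea := by
    rw [e1] at h4
    simpa [unitArea] using h4
  exact lt_of_lt_of_le one_pos h5

end Pool.Agent.J6H68.Kusner
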