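import Pool.Agent.J6H68.Kusner.Maps

open MeasureTheory Set Metric Filter Topology
open scoped ENNReal ContDiff NNReal

namespace Pool.Agent.J6H68.Kusner

/-- The cube root of `1 + s / k`. -/
noncomputable def root (k s : ℝ) : ℝ := (1 + s / k) ^ (1 / 3 : ℝ)

lemma root_pow {k s : ℝ} (h : 0 ≤ 1 + s / k) : root k s ^ 3 = 1 + s / k := by
  rw [root, ← Real.rpow_natCast, ← Real.rpow_mul h]
  norm_num

lemma root_sq {k s : ℝ} (h : 0 ≤ 1 + s / k) : root k s ^ 2 = (1 + s / k) ^ (2 / 3 : ℝ) := by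
  rw [root, ← Real.rpow_natCast, ← Real.rpow_mul h]
  norm_num

lemma abs_root_sub_one_le {k s ε : ℝ} (hk : 1 ≤ |k|) (hs : |s| ≤ ε) (hε : ε ≤ 1) :
    |root k s - 1| ≤ ε := by
  have hq : |s / k| ≤ ε := by
    rw [abs_div]
    exact (div_le_self (abs_nonneg _) hk).trans hs
  have hq' := abs_le.1 hq
  have h0 : 0 ≤ 1 + s / k := by linarith
  have hr0 : 0 ≤ root k s := Real.rpow_nonneg h0 _
  have h3 := root_pow h0
  set y := root k s
  have h4 : (y - 1) * (y ^ 2 + y + 1) = s / k := by linear_combination h3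
  have h5 : |y - 1| * (y ^ 2 + y + 1) = |s / k| := by
    rw [← h4, abs_mul, abs_of_pos (by positivity : 0 < y ^ 2 + y + 1)]
  have h6 : |y - 1| ≤ |y - 1| * (y ^ 2 + y + 1) := by
    have : 0 ≤ |y - 1| * (y ^ 2 + y) := by positivity
    nlinarith
  linarith

/-- The volume of the unit ball. -/
noncomputable def ballVol : ℝ≥0∞ := volume (ball (0 : E3) 1)

lemma vol_ball (p : E3) {r : ℝ} (hr : 0 ≤ r) :
    volume (ball p r) = ENNReal.ofReal (r ^ 3) * ballVol := by
  rw [Measure.addHaar_ball _ _ hr, ballVol]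
  simp

lemma vol_closedBall (p : E3) {r : ℝ} (hr : 0 ≤ r) :
    volume (closedBall p r) = ENNReal.ofReal (r ^ 3) * ballVol := by
  rw [Measure.addHaar_closedBall _ _ hr, ballVol]
  simp

lemma ballVol_lt_top : ballVol < ⊤ := measure_ball_lt_top

lemma vol_cellA_of {r1 r2 : ℝ} (h1 : 0 ≤ r1) (h1' : r1 ≤ 4) (h2 : 0 ≤ r2) (h2' : r2 ≤ 4)
    (h : r1 ^ 3 + r2 ^ 3 = 35) :
    volume (ball c0 r1 ∪ ball 0 r2) = ENNReal.ofReal 35 * ballVol := by
  rw [measure_union ?_ measurableSet_ball, vol_ball _ h1, vol_ball _ h2, ← add_mul,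
    ← ENNReal.ofReal_add (by positivity) (by positivity), h]
  rw [Set.disjoint_left]
  intro x hx hx'
  have := dist_c0_ge x
  rw [mem_ball] at hx hx'
  rw [dist_zero_right] at hx'
  linarith

lemma vol_cellB_of {r1 r2 : ℝ} (h1 : 0 ≤ r1) (h12 : r1 < r2) (h : r2 ^ 3 - r1 ^ 3 = 189) :
    volume (ball (0 : E3) r2 \ closedBall 0 r1) = ENNReal.ofReal 189 * ballVol := by
  have hsub : closedBall (0 : E3) r1 ⊆ ball 0 r2 := closedBall_subset_ball h12
  have hfin : volume (closedBall (0 : E3) r1) ≠ ⊤ := measure_closedBall_lt_top.ne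
  rw [measure_sdiff hsub measurableSet_closedBall.nullMeasurableSet hfin,
    vol_ball _ (h1.trans h12.le), vol_closedBall _ h1, ← h,
    ENNReal.ofReal_sub _ (by positivity), ENNReal.sub_mul]
  intro _ _
  exact ballVol_lt_top.ne

/-- The deformation: `s = ε sin t` is the volume (divided by `4π/3`) moved from the distant ball to
the inner ball. -/
noncomputable def defo (ε t : ℝ) : E3 → E3 :=
  dmap (root (-8) (ε * Real.sin t) - 1) (root 27 (ε * Real.sin t) - 1)
    (root 216 (ε * Real.sin t) - 1)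

/-- The area of the deformed cluster, divided by the area of the unit sphere. -/
noncomputable def areaFun (ε t : ℝ) : ℝ :=
  4 * (1 + ε * Real.sin t / (-8)) ^ (2 / 3 : ℝ) + 9 * (1 + ε * Real.sin t / 27) ^ (2 / 3 : ℝ) +
    36 * (1 + ε * Real.sin t / 216) ^ (2 / 3 : ℝ)

lemma disp_cd (a b c : ℝ) : ContDiff ℝ ∞ (disp a b c) := by
  have h1 : ContDiff ℝ ∞ (fun x => a • gA x) := gA_cd.const_smul a
  have h2 : ContDiff ℝ ∞ (fun x => b • gB x) := gB_cd.const_smul b
  have h3 : ContDiff ℝ ∞ (fun x => c • (gC x - gD x)) := (gC_cd.sub gD_cd).const_smul c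
  exact (h1.add h2).add h3

lemma exists_defo : ∃ ε : ℝ, 0 < ε ∧ ε ≤ 1 / 16 ∧ IsDeformation (defo ε) ∧
    cluster.PreservesVolumes (defo ε) ∧
    ∀ t, (cluster.areaUnder (defo ε t)).toReal = unitArea.toReal * areaFun ε t := by
  obtain ⟨K, hA, hB, hC, hD⟩ := exists_lip
  set ε : ℝ := 1 / (16 * (K + 1)) with hε
  have hK1 : (1 : ℝ) ≤ K + 1 := by have := K.coe_nonneg; linarith
  have hε0 : 0 < ε := by positivity
  have hεK : ε * (16 * (K + 1)) ≤ 1 := by
    rw [hε]
    field_simp
    exact le_refl _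
  have hε1 : ε ≤ 1 / 16 := by nlinarith
  have hs : ∀ t, |ε * Real.sin t| ≤ ε := by
    intro t
    rw [abs_mul, abs_of_pos hε0]
    have := Real.abs_sin_le_one t
    nlinarith
  have ha : ∀ t, |root (-8) (ε * Real.sin t) - 1| ≤ ε := fun t =>
    abs_root_sub_one_le (by norm_num) (hs t) (by linarith)
  have hb : ∀ t, |root 27 (ε * Real.sin t) - 1| ≤ ε := fun t =>
    abs_root_sub_one_le (by norm_num) (hs t) (by linarith)
  have hc : ∀ t, |root 216 (ε * Real.sin t) - 1| ≤ ε := fun t =>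
    abs_root_sub_one_le (by norm_num) (hs t) (by linarith)
  have hL : ∀ t, LipschitzWith (1 / 4) (disp (root (-8) (ε * Real.sin t) - 1)
      (root 27 (ε * Real.sin t) - 1) (root 216 (ε * Real.sin t) - 1)) := fun t =>
    disp_lip hA hB hC hD (ha t) (hb t) (hc t) hεK
  have hinv : ∀ t, ∃ ψ : E3 → E3, ContDiff ℝ ∞ ψ ∧ Function.LeftInverse ψ (defo ε t) ∧
      Function.RightInverse ψ (defo ε t) := by
    intro t
    have hq : (1 / 4 : ℝ≥0) < 1 := by
      rw [← NNReal.coe_lt_coe]
      push_cast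
      norm_num
    exact exists_smooth_inverse (disp (root (-8) (ε * Real.sin t) - 1)
      (root 27 (ε * Real.sin t) - 1) (root 216 (ε * Real.sin t) - 1)) (disp_cd _ _ _) (1 / 4) hq (hL t)
  have hpos8 : ∀ t, 0 < 1 + ε * Real.sin t / (-8) := by
    intro t
    have := abs_le.1 (hs t)
    linarith
  have hpos27 : ∀ t, 0 < 1 + ε * Real.sin t / 27 := by
    intro t
    have := abs_le.1 (hs t)
    linarith
  have hpos216 : ∀ t, 0 < 1 + ε * Real.sin t / 216 := by
    intro t
    have := abs_le.1 (hs t)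
    linarith
  have hroot : ∀ k : ℝ, (∀ t, 0 < 1 + ε * Real.sin t / k) →
      ContDiff ℝ ∞ (fun p : ℝ × E3 => root k (ε * Real.sin p.1) - 1) := by
    intro k hk
    have h1 : ContDiff ℝ ∞ (fun p : ℝ × E3 => 1 + ε * Real.sin p.1 / k) :=
      contDiff_const.add ((contDiff_const.mul (Real.contDiff_sin.comp contDiff_fst)).div_const k)
    exact (h1.rpow_const_of_ne (fun p => (hk p.1).ne')).sub contDiff_const
  refine ⟨ε, hε0, hε1, ⟨?_, ?_, hinv⟩, ?_, ?_⟩
  · have e : (fun p : ℝ × E3 => defo ε p.1 p.2) = fun p : ℝ × E3 => p.2 +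
        ((root (-8) (ε * Real.sin p.1) - 1) • gA p.2 + (root 27 (ε * Real.sin p.1) - 1) • gB p.2 +
          (root 216 (ε * Real.sin p.1) - 1) • (gC p.2 - gD p.2)) := rfl
    rw [e]
    exact contDiff_snd.add ((((hroot _ hpos8).smul (gA_cd.comp contDiff_snd)).add
      ((hroot _ hpos27).smul (gB_cd.comp contDiff_snd))).add
      ((hroot _ hpos216).smul ((gC_cd.comp contDiff_snd).sub (gD_cd.comp contDiff_snd))))
  · intro x
    have h0 : ∀ k, root k (ε * Real.sin 0) - 1 = 0 := by
      intro k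
      simp [root]
    rw [defo, h0, h0, h0, dmap, disp, zero_smul, zero_smul, zero_smul, add_zero, add_zero, add_zero]
  · intro t i
    obtain ⟨ψ, _, hψl, hψr⟩ := hinv t
    have a1 := lt_of_le_of_lt (ha t) (by linarith : ε < 1)
    have b1 := lt_of_le_of_lt (hb t) (by linarith : ε < 1)
    have c1 := lt_of_le_of_lt (hc t) (by linarith : ε < 1)
    have a2 := abs_le.1 (ha t)
    have b2 := abs_le.1 (hb t)
    have c2 := abs_le.1 (hc t)
    have ra := root_pow (hpos8 t).le
    have rb := root_pow (hpos27 t).le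
    have rc := root_pow (hpos216 t).le
    have ea : 1 + (root (-8) (ε * Real.sin t) - 1) = root (-8) (ε * Real.sin t) := by ring
    have eb : 1 + (root 27 (ε * Real.sin t) - 1) = root 27 (ε * Real.sin t) := by ring
    have ec : 1 + (root 216 (ε * Real.sin t) - 1) = root 216 (ε * Real.sin t) := by ring
    fin_cases i
    · show volume (defo ε t '' (ball c0 2 ∪ ball 0 3)) = volume (ball c0 2 ∪ ball 0 3)
      rw [image_union, defo, image_ball_c0 a1, image_ball_three b1, ea, eb,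
        vol_cellA_of (r1 := 2) (r2 := 3) (by norm_num) (by norm_num) (by norm_num) (by norm_num)
          (by norm_num)]
      refine vol_cellA_of ?_ ?_ ?_ ?_ ?_
      · linarith
      · linarith
      · linarith
      · linarith
      · rw [mul_pow, mul_pow, ra, rb]; ring
    · show volume (defo ε t '' (ball 0 6 \ closedBall 0 3)) = volume (ball (0 : E3) 6 \ closedBall 0 3)
      rw [image_sdiff hψl.injective, defo,
        image_ball_six (hL t) (ha t) (hb t) (hc t) hε1 hψr.surjective,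
        image_closedBall_three b1, eb, ec,
        vol_cellB_of (r1 := 3) (r2 := 6) (by norm_num) (by norm_num) (by norm_num)]
      refine vol_cellB_of ?_ ?_ ?_
      · linarith
      · linarith
      · rw [mul_pow, mul_pow, rb, rc]; ring
  · intro t
    have a1 := lt_of_le_of_lt (ha t) (by linarith : ε < 1)
    have b1 := lt_of_le_of_lt (hb t) (by linarith : ε < 1)
    have c1 := lt_of_le_of_lt (hc t) (by linarith : ε < 1)
    have a2 := abs_lt.1 a1
    have b2 := abs_lt.1 b1
    have c2 := abs_lt.1 c1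
    have ra := root_sq (hpos8 t).le
    have rb := root_sq (hpos27 t).le
    have rc := root_sq (hpos216 t).le
    have ea : 1 + (root (-8) (ε * Real.sin t) - 1) = root (-8) (ε * Real.sin t) := by ring
    have eb : 1 + (root 27 (ε * Real.sin t) - 1) = root 27 (ε * Real.sin t) := by ring
    have ec : 1 + (root 216 (ε * Real.sin t) - 1) = root 216 (ε * Real.sin t) := by ring
    rw [areaUnder_eq, defo, image_sphere_c0 a1, image_sphere_three b1, image_sphere_six c1,
      ea, eb, ec, area_sphere _ _ (by linarith), area_sphere _ _ (by linarith),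
      area_sphere _ _ (by linarith), ← add_mul, ← add_mul,
      ← ENNReal.ofReal_add (by positivity) (by positivity),
      ← ENNReal.ofReal_add (by positivity) (by positivity), ENNReal.toReal_mul,
      ENNReal.toReal_ofReal (by positivity), mul_pow, mul_pow, mul_pow, ra, rb, rc, areaFun]
    ring

/-- The second derivative of the area at time zero is negative. -/
lemma second_deriv_areaFun (κ ε : ℝ) (hκ : 0 < κ) (hε0 : 0 < ε) (hε1 : ε ≤ 1 / 16) :
    iteratedDeriv 2 (fun t => κ * areaFun ε t) 0 < 0 := by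
  have hs : ∀ t, |ε * Real.sin t| ≤ ε := by
    intro t
    rw [abs_mul, abs_of_pos hε0]
    have := Real.abs_sin_le_one t
    nlinarith
  have hB : ∀ k : ℝ, 1 ≤ |k| → ∀ t, 0 < 1 + ε * Real.sin t / k := by
    intro k hk t
    have h1 : |ε * Real.sin t / k| ≤ ε := by
      rw [abs_div]
      exact (div_le_self (abs_nonneg _) hk).trans (hs t)
    have := abs_le.1 h1
    linarith
  have hder : ∀ k : ℝ, ∀ t, HasDerivAt (fun t => 1 + ε * Real.sin t / k) (ε * Real.cos t / k) t := by
    intro k t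
    exact (((Real.hasDerivAt_sin t).const_mul ε).div_const k).const_add 1
  have h1 : ∀ k : ℝ, 1 ≤ |k| → ∀ p : ℝ, ∀ t, HasDerivAt (fun t => (1 + ε * Real.sin t / k) ^ p)
      (ε * Real.cos t / k * p * (1 + ε * Real.sin t / k) ^ (p - 1)) t := by
    intro k hk p t
    exact (hder k t).rpow_const (Or.inl (hB k hk t).ne')
  have k8 : (1 : ℝ) ≤ |(-8 : ℝ)| := by norm_num
  have k27 : (1 : ℝ) ≤ |(27 : ℝ)| := by norm_num
  have k216 : (1 : ℝ) ≤ |(216 : ℝ)| := by norm_num
  let D : ℝ → ℝ := fun t => κ * (4 * (ε * Real.cos t / (-8) * (2 / 3) *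
    (1 + ε * Real.sin t / (-8)) ^ ((2 / 3 : ℝ) - 1)) +
    9 * (ε * Real.cos t / 27 * (2 / 3) * (1 + ε * Real.sin t / 27) ^ ((2 / 3 : ℝ) - 1)) +
    36 * (ε * Real.cos t / 216 * (2 / 3) * (1 + ε * Real.sin t / 216) ^ ((2 / 3 : ℝ) - 1)))
  have hd1 : ∀ t, HasDerivAt (fun t => κ * areaFun ε t) (D t) t := by
    intro t
    exact ((((h1 _ k8 _ t).const_mul 4).add ((h1 _ k27 _ t).const_mul 9)).add
      ((h1 _ k216 _ t).const_mul 36)).const_mul κ
  have hderiv : deriv (fun t => κ * areaFun ε t) = D := funext fun t => (hd1 t).deriv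
  have h2 : ∀ k : ℝ, 1 ≤ |k| → HasDerivAt (fun t => ε * Real.cos t / k * (2 / 3) *
      (1 + ε * Real.sin t / k) ^ ((2 / 3 : ℝ) - 1))
      (-(2 / 9) * (ε / k) ^ 2) 0 := by
    intro k hk
    have e1 : HasDerivAt (fun t => ε * Real.cos t / k * (2 / 3))
        (ε * (-Real.sin 0) / k * (2 / 3)) 0 :=
      (((Real.hasDerivAt_cos 0).const_mul ε).div_const k).mul_const (2 / 3)
    have e2 : HasDerivAt (fun t => ε * Real.cos t / k * (2 / 3) *
      (1 + ε * Real.sin t / k) ^ ((2 / 3 : ℝ) - 1)) _ 0 := e1.mul (h1 k hk ((2 / 3 : ℝ) - 1) 0)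
    refine e2.congr_deriv ?_
    rw [Real.sin_zero, Real.cos_zero, mul_zero, zero_div, add_zero, Real.one_rpow, Real.one_rpow]
    ring
  have hd2 : HasDerivAt D (κ * (4 * (-(2 / 9) * (ε / (-8)) ^ 2) + 9 * (-(2 / 9) * (ε / 27) ^ 2) +
      36 * (-(2 / 9) * (ε / 216) ^ 2))) 0 :=
    ((((h2 _ k8).const_mul 4).add ((h2 _ k27).const_mul 9)).add
      ((h2 _ k216).const_mul 36)).const_mul κ
  rw [iteratedDeriv_succ, iteratedDeriv_one, hderiv, hd2.deriv]
  have : 0 < ε ^ 2 := by positivity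
  have e : κ * (4 * (-(2 / 9) * (ε / (-8)) ^ 2) + 9 * (-(2 / 9) * (ε / 27) ^ 2) +
      36 * (-(2 / 9) * (ε / 216) ^ 2)) =
      -(κ * ε ^ 2) * (4 * (2 / 9) / 64 + 9 * (2 / 9) / 729 + 36 * (2 / 9) / 46656) := by ring
  rw [e]
  have : 0 < κ * ε ^ 2 := by positivity
  nlinarith

/-- The first derivative of the area at time zero vanishes. -/
lemma first_deriv_areaFun (κ ε : ℝ) :
    deriv (fun t => κ * areaFun ε t) 0 = 0 := by
  have h1 : ∀ k : ℝ, HasDerivAt (fun t => (1 + ε * Real.sin t / k) ^ (2 / 3 : ℝ))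
      (ε * Real.cos 0 / k * (2 / 3) * (1 + ε * Real.sin 0 / k) ^ ((2 / 3 : ℝ) - 1)) 0 := by
    intro k
    have h : HasDerivAt (fun t => 1 + ε * Real.sin t / k) (ε * Real.cos 0 / k) 0 :=
      (((Real.hasDerivAt_sin 0).const_mul ε).div_const k).const_add 1
    refine h.rpow_const (Or.inl ?_)
    rw [Real.sin_zero]
    norm_num
  have h2 : HasDerivAt (fun t => κ * areaFun ε t) _ 0 :=
    ((((h1 (-8)).const_mul 4).add ((h1 27).const_mul 9)).add ((h1 216).const_mul 36)).const_mul κ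
  rw [h2.deriv, Real.sin_zero, Real.cos_zero, mul_zero, zero_div, zero_div, zero_div, add_zero,
    Real.one_rpow]
  ring

lemma exists_unstable : ∃ φ : ℝ → E3 → E3, IsDeformation φ ∧ cluster.PreservesVolumes φ ∧
    deriv (fun t => (cluster.areaUnder (φ t)).toReal) 0 = 0 ∧
    iteratedDeriv 2 (fun t => (cluster.areaUnder (φ t)).toReal) 0 < 0 := by
  obtain ⟨ε, hε0, hε1, hdef, hvol, harea⟩ := exists_defo
  have e : (fun t => (cluster.areaUnder (defo ε t)).toReal) =
      fun t => unitArea.toReal * areaFun ε t := funext harea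
  have hκ : 0 < unitArea.toReal := ENNReal.toReal_pos unitArea_pos.ne' unitArea_lt_top.ne
  refine ⟨defo ε, hdef, hvol, ?_, ?_⟩
  · rw [e]; exact first_deriv_areaFun _ _
  · rw [e]; exact second_deriv_areaFun _ ε hκ hε0 hε1

lemma not_stable : ¬ cluster.Stable := by
  intro hst
  obtain ⟨φ, hdef, hvol, _, h2⟩ := exists_unstable
  exact absurd h2 (not_lt.2 (hst φ hdef hvol))

end Pool.Agent.J6H68.Kusner
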