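import Mathlib

/-!
Clusters in Euclidean three-space: interfaces, spherical interfaces, Plateau's laws, the
Young-Laplace law and stability.
-/

open MeasureTheory Set Metric
open scoped ENNReal ContDiff

namespace Pool.Agent.J6H68.Kusner

/-- Euclidean three-space. -/
abbrev E3 : Type := EuclideanSpace ℝ (Fin 3)

/-- A cluster with `k` bounded cells: pairwise disjoint open sets of finite positive volume. -/
structure Cluster (k : ℕ) where
  /-- The cells. -/
  cell : Fin k → Set E3
  /-- Every cell is open. -/
  isOpen_cell : ∀ i, IsOpen (cell i)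
  /-- Different cells are disjoint. -/
  disjoint_cell : ∀ i j, i ≠ j → Disjoint (cell i) (cell j)
  /-- Every cell has positive volume. -/
  volume_pos : ∀ i, 0 < volume (cell i)
  /-- Every cell has finite volume. -/
  volume_lt_top : ∀ i, volume (cell i) < ⊤

namespace Cluster

variable {k : ℕ}

/-- The regions of a cluster: region `i` is the cell `i` for `i < k`, and region `k` is the
exterior, the complement of the closure of the union of the cells. -/
def region (Ω : Cluster k) (i : Fin (k + 1)) : Set E3 :=
  if h : (i : ℕ) < k then Ω.cell ⟨i, h⟩ else (closure (⋃ j, Ω.cell j))ᶜ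

/-- The interface between the regions `i` and `j`: the common part of their boundaries. -/
def interface (Ω : Cluster k) (i j : Fin (k + 1)) : Set E3 :=
  frontier (Ω.region i) ∩ frontier (Ω.region j)

/-- The union of all interfaces. -/
def surface (Ω : Cluster k) : Set E3 :=
  {x | ∃ i j, i ≠ j ∧ x ∈ Ω.interface i j}

/-- The total area of the interfaces after applying the map `f` of space: the sum over all pairs
`i < j` of the two-dimensional Hausdorff measure of the image of the interface. -/
noncomputable def areaUnder (Ω : Cluster k) (f : E3 → E3) : ℝ≥0∞ :=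
  ∑ i : Fin (k + 1), ∑ j ∈ Finset.univ.filter (fun j : Fin (k + 1) => i < j),
    μH[2] (f '' Ω.interface i j)

/-- The affine plane `{x | ⟪n, x⟫ = d}`. -/
def plane (n : E3) (d : ℝ) : Set E3 := {x | inner ℝ n x = d}

/-- Every interface is contained in a round sphere or in a plane. -/
def SphericalInterfaces (Ω : Cluster k) : Prop :=
  ∀ i j, i ≠ j →
    (∃ (c : E3) (r : ℝ), 0 < r ∧ Ω.interface i j ⊆ sphere c r) ∨
    (∃ (n : E3) (d : ℝ), n ≠ 0 ∧ Ω.interface i j ⊆ plane n d)

end Cluster

/-- The model of a regular point: a plane through the origin. -/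
def planeCone : Set E3 := {v | v 2 = 0}

/-- The model of a point on a triple curve: three half-planes with common boundary line, meeting
at angles of 120 degrees. -/
def yCone : Set E3 :=
  {v | ∃ (s : ℝ) (m : Fin 3), 0 ≤ s ∧ v 0 = s * Real.cos (2 * Real.pi * (m : ℕ) / 3) ∧
    v 1 = s * Real.sin (2 * Real.pi * (m : ℕ) / 3)}

/-- The four vertices of a regular tetrahedron centred at the origin; the angle between the
directions of two of them is `arccos (-1/3)`. -/
noncomputable def tetraVertex : Fin 4 → E3 :=
  ![!₂[1, 1, 1], !₂[1, -1, -1], !₂[-1, 1, -1], !₂[-1, -1, 1]]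

/-- The model of a quadruple point: the cone with apex at the origin over the six edges of a
regular tetrahedron centred at the origin. -/
def tCone : Set E3 :=
  {v | ∃ (i j : Fin 4) (s t : ℝ), 0 ≤ s ∧ 0 ≤ t ∧ v = s • tetraVertex i + t • tetraVertex j}

/-- Near `x` the set `M` is the image of the model `K` near the origin under a diffeomorphism
between open sets whose differential at the point is a linear isometry (so that all angles at `x`
are those of the model). `F` maps a neighbourhood `U` of `x` onto `V`, with inverse `G`. -/
def LocallyModelledOn (M : Set E3) (x : E3) (K : Set E3) : Prop :=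
  ∃ (U V : Set E3) (F G : E3 → E3) (L : E3 ≃ₗᵢ[ℝ] E3),
    IsOpen U ∧ IsOpen V ∧ x ∈ U ∧ MapsTo F U V ∧ MapsTo G V U ∧
    LeftInvOn G F U ∧ LeftInvOn F G V ∧
    ContDiffOn ℝ ∞ F U ∧ ContDiffOn ℝ ∞ G V ∧
    F x = 0 ∧ HasFDerivAt F (L.toContinuousLinearEquiv : E3 →L[ℝ] E3) x ∧
    ∀ y ∈ U, (y ∈ M ↔ F y ∈ K)

namespace Cluster

variable {k : ℕ}

/-- Plateau's laws: near each of its points the union of the interfaces is a smooth surface, or
three smooth sheets meeting at 120 degrees along a smooth curve, or six sheets meeting along four
curves at tetrahedral angles. -/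
def PlateauLaws (Ω : Cluster k) : Prop :=
  ∀ x ∈ Ω.surface, LocallyModelledOn Ω.surface x planeCone ∨
    LocallyModelledOn Ω.surface x yCone ∨ LocallyModelledOn Ω.surface x tCone

/-- On the sphere with centre `c` and radius `r`, region `i` lies inside and region `j` outside,
locally along their interface. -/
def InsideOutside (Ω : Cluster k) (i j : Fin (k + 1)) (c : E3) (r : ℝ) : Prop :=
  ∀ x ∈ Ω.interface i j, ∃ U : Set E3, IsOpen U ∧ x ∈ U ∧
    U ∩ Ω.region i ⊆ ball c r ∧ U ∩ Ω.region j ⊆ (closedBall c r)ᶜ

/-- The Young-Laplace law for a cluster with spherical interfaces (with Plateau's laws this says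
that the cluster is stationary): there are pressures, with pressure zero outside, such that the
pressure difference across every interface is its mean curvature: `p i - p j = 2 / r` if the
interface lies in a sphere of radius `r` with region `i` inside and region `j` outside, and
`p i = p j` if it lies in a plane. -/
def YoungLaplace (Ω : Cluster k) : Prop :=
  ∃ p : Fin (k + 1) → ℝ, p (Fin.last k) = 0 ∧ ∀ i j, i ≠ j →
    Ω.interface i j = ∅ ∨
    (∃ (n : E3) (d : ℝ), n ≠ 0 ∧ Ω.interface i j ⊆ plane n d ∧ p i = p j) ∨
    (∃ (c : E3) (r : ℝ), 0 < r ∧ Ω.interface i j ⊆ sphere c r ∧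
      ((Ω.InsideOutside i j c r ∧ p i - p j = 2 / r) ∨
        (Ω.InsideOutside j i c r ∧ p j - p i = 2 / r)))

end Cluster

/-- A smooth one-parameter family of deformations of space: a smooth map `φ` of time and position
with `φ 0` the identity, such that every `φ t` is a diffeomorphism of space. -/
structure IsDeformation (φ : ℝ → E3 → E3) : Prop where
  contDiff : ContDiff ℝ ∞ (fun p : ℝ × E3 => φ p.1 p.2)
  zero : ∀ x, φ 0 x = x
  diffeo : ∀ t, ∃ ψ : E3 → E3, ContDiff ℝ ∞ ψ ∧
    Function.LeftInverse ψ (φ t) ∧ Function.RightInverse ψ (φ t)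

namespace Cluster

variable {k : ℕ}

/-- The family `φ` keeps the volume of every bounded cell fixed. -/
def PreservesVolumes (Ω : Cluster k) (φ : ℝ → E3 → E3) : Prop :=
  ∀ t i, volume (φ t '' Ω.cell i) = volume (Ω.cell i)

/-- Stability: the second variation of the total interface area is nonnegative along every smooth
one-parameter family of deformations that keeps the volume of each bounded cell fixed. -/
def Stable (Ω : Cluster k) : Prop :=
  ∀ φ : ℝ → E3 → E3, IsDeformation φ → Ω.PreservesVolumes φ →
    0 ≤ iteratedDeriv 2 (fun t => (Ω.areaUnder (φ t)).toReal) 0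

end Cluster

end Pool.Agent.J6H68.Kusner
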