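import Pool.Agent.J6H68.Kusner.Defs

open MeasureTheory Set Metric
open scoped ENNReal ContDiff NNReal

namespace Pool.Agent.J6H68.Kusner

/-- A smooth perturbation of the identity with Lipschitz constant below one has a smooth
inverse. -/
lemma exists_smooth_inverse (η : E3 → E3) (hη : ContDiff ℝ ∞ η) (K : ℝ≥0) (hK : K < 1)
    (hL : LipschitzWith K η) :
    ∃ ψ : E3 → E3, ContDiff ℝ ∞ ψ ∧ Function.LeftInverse ψ (fun x => x + η x) ∧
      Function.RightInverse ψ (fun x => x + η x) := by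
  have hA : ApproximatesLinearOn (fun x => x + η x)
      ((ContinuousLinearEquiv.refl ℝ E3 : E3 ≃L[ℝ] E3) : E3 →L[ℝ] E3) univ K := by
    intro x _ y _
    have h := hL.dist_le_mul x y
    rw [dist_eq_norm, dist_eq_norm] at h
    have e : x + η x - (y + η y) - ((ContinuousLinearEquiv.refl ℝ E3 : E3 ≃L[ℝ] E3) : E3 →L[ℝ] E3)
        (x - y) = η x - η y := by
      simp
      abel
    rw [e]
    exact h
  have hN : (K : ℝ≥0) <
      ‖((ContinuousLinearEquiv.refl ℝ E3).symm : E3 →L[ℝ] E3)‖₊⁻¹ := by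
    have : ‖((ContinuousLinearEquiv.refl ℝ E3).symm : E3 →L[ℝ] E3)‖₊ = 1 := by
      rw [← NNReal.coe_inj]
      simp
    rw [this]
    simpa using hK
  let h := hA.toHomeomorph (fun x => x + η x) (Or.inr hN)
  have hh : ∀ x, h x = x + η x := fun x => rfl
  have hd : ∀ x, HasFDerivAt η (fderiv ℝ η x) x := fun x =>
    ((hη.differentiable (by simp)) x).hasFDerivAt
  have hnorm : ∀ x, ‖-(fderiv ℝ η x)‖ < 1 := by
    intro x
    rw [norm_neg]
    refine lt_of_le_of_lt (norm_fderiv_le_of_lipschitz ℝ hL) ?_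
    exact_mod_cast hK
  let u : E3 → (E3 →L[ℝ] E3)ˣ := fun x => Units.oneSub (-(fderiv ℝ η x)) (hnorm x)
  let f' : E3 → (E3 ≃L[ℝ] E3) := fun x => ContinuousLinearEquiv.ofUnit (u x)
  have hf' : ∀ x, HasFDerivAt h ((f' x : E3 ≃L[ℝ] E3) : E3 →L[ℝ] E3) x := by
    intro x
    have e : ((f' x : E3 ≃L[ℝ] E3) : E3 →L[ℝ] E3) = ContinuousLinearMap.id ℝ E3 + fderiv ℝ η x := by
      ext v : 1
      simp [f', u, ContinuousLinearEquiv.ofUnit, Units.oneSub]
    rw [e]
    exact (hasFDerivAt_id x).add (hd x)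
  have hsm : ContDiff ℝ ∞ (h : E3 → E3) := by
    show ContDiff ℝ ∞ (fun x => x + η x)
    exact contDiff_id.add hη
  refine ⟨h.symm, h.contDiff_symm hf' hsm, ?_, ?_⟩
  · intro x
    exact h.symm_apply_apply x
  · intro x
    exact h.apply_symm_apply x

end Pool.Agent.J6H68.Kusner
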