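import Pool.Agent.J6H68.Kusner.Area
import Pool.Agent.J6H68.Kusner.Diffeo

open MeasureTheory Set Metric Filter Topology
open scoped ENNReal ContDiff NNReal

namespace Pool.Agent.J6H68.Kusner

/-- The centre of the distant ball. -/
noncomputable def c0 : E3 := EuclideanSpace.single 0 20

lemma norm_c0 : ‖c0‖ = 20 := by
  simp [c0]

lemma dist_c0_ge (x : E3) : 20 ≤ dist x c0 + ‖x‖ := by
  have h := norm_sub_norm_le c0 x
  rw [norm_c0] at h
  rw [dist_comm, dist_eq_norm]
  linarith

lemma closure_annulus {a b : ℝ} (ha : 0 < a) (hab : a < b) :
    closure (ball (0 : E3) b \ closedBall 0 a) = closedBall 0 b \ ball 0 a := by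
  apply Subset.antisymm
  · refine closure_minimal ?_ ?_
    · intro x hx
      exact ⟨ball_subset_closedBall hx.1, fun h => hx.2 (ball_subset_closedBall h)⟩
    · exact isClosed_closedBall.sdiff isOpen_ball
  · intro x hx
    have h1 : ‖x‖ ≤ b := by simpa using hx.1
    have h2 : a ≤ ‖x‖ := by simpa using hx.2
    have hx0 : 0 < ‖x‖ := lt_of_lt_of_le ha h2
    set m : ℝ := (a + b) / 2 with hm
    let z : ℝ → E3 := fun s => ((1 - s) + s * (m / ‖x‖)) • x
    have hz : ContinuousAt z 0 := by
      apply Continuous.continuousAt
      fun_prop
    have hz0 : z 0 = x := by simp [z]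
    have ht : Tendsto z (𝓝[>] 0) (𝓝 x) := by
      have := hz.tendsto
      rw [hz0] at this
      exact this.mono_left nhdsWithin_le_nhds
    refine mem_closure_of_tendsto ht ?_
    have hev : ∀ᶠ s : ℝ in 𝓝[>] 0, s ∈ Ioo (0 : ℝ) 1 := Ioo_mem_nhdsGT one_pos
    filter_upwards [hev] with s hs
    have hnorm : ‖z s‖ = (1 - s) * ‖x‖ + s * m := by
      have hpos : 0 ≤ (1 - s) + s * (m / ‖x‖) := by
        have hm0 : 0 ≤ m := by rw [hm]; linarith
        have h5 := hs.2
        have h6 := mul_nonneg hs.1.le (div_nonneg hm0 hx0.le)
        linarith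
      simp only [z]
      rw [norm_smul, Real.norm_of_nonneg hpos]
      field_simp
    have h3 : ‖z s‖ < b := by
      rw [hnorm]
      have : m < b := by rw [hm]; linarith
      have h5 := hs.1
      have h6 := hs.2
      nlinarith
    have h4 : a < ‖z s‖ := by
      rw [hnorm]
      have : a < m := by rw [hm]; linarith
      have h5 := hs.1
      have h6 := hs.2
      nlinarith
    refine ⟨by simpa using h3, by simpa using h4⟩

/-- The first cell: a distant ball of radius `2` together with the ball of radius `3`. -/
def cellA : Set E3 := ball c0 2 ∪ ball 0 3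

/-- The second cell: the ball of radius `6` without the closed ball of radius `3`. -/
def cellB : Set E3 := ball 0 6 \ closedBall 0 3

lemma isOpen_cellA : IsOpen cellA := isOpen_ball.union isOpen_ball

lemma isOpen_cellB : IsOpen cellB := isOpen_ball.sdiff isClosed_closedBall

lemma closure_cellA : closure cellA = closedBall c0 2 ∪ closedBall 0 3 := by
  rw [cellA, closure_union, closure_ball _ (by norm_num), closure_ball _ (by norm_num)]

lemma closure_cellB : closure cellB = closedBall 0 6 \ ball 0 3 :=
  closure_annulus (by norm_num) (by norm_num)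

lemma frontier_cellA : frontier cellA = sphere c0 2 ∪ sphere 0 3 := by
  rw [isOpen_cellA.frontier_eq, closure_cellA, cellA]
  ext x
  have := dist_c0_ge x
  simp only [Set.mem_sdiff, mem_union, mem_closedBall, mem_ball, mem_sphere, dist_zero_right, not_or,
    not_lt]
  constructor
  · rintro ⟨h1 | h1, h2, h3⟩
    · left; linarith
    · right; linarith
  · rintro (h | h)
    · refine ⟨Or.inl h.le, h.ge, ?_⟩
      linarith
    · refine ⟨Or.inr h.le, ?_, h.ge⟩
      linarith

lemma frontier_cellB : frontier cellB = sphere 0 3 ∪ sphere 0 6 := by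
  rw [isOpen_cellB.frontier_eq, closure_cellB, cellB]
  ext x
  simp only [Set.mem_sdiff, mem_union, mem_closedBall, mem_ball, mem_sphere, dist_zero_right, not_and,
    not_lt, not_le]
  constructor
  · rintro ⟨⟨h1, h2⟩, h3⟩
    by_cases h : ‖x‖ < 6
    · left; exact le_antisymm (h3 h) h2
    · right; push Not at h; linarith
  · rintro (h | h)
    · exact ⟨⟨by linarith, h.ge⟩, fun _ => h.le⟩
    · exact ⟨⟨h.le, by linarith⟩, fun h' => by linarith⟩

lemma closure_cells : closure (cellA ∪ cellB) = closedBall c0 2 ∪ closedBall 0 6 := by
  rw [closure_union, closure_cellA, closure_cellB]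
  ext x
  simp only [mem_union, Set.mem_sdiff, mem_closedBall, mem_ball, dist_zero_right, not_lt]
  constructor
  · rintro ((h | h) | h)
    · exact Or.inl h
    · right; linarith
    · exact Or.inr h.1
  · rintro (h | h)
    · exact Or.inl (Or.inl h)
    · by_cases h3 : ‖x‖ ≤ 3
      · exact Or.inl (Or.inr h3)
      · exact Or.inr ⟨h, (not_le.1 h3).le⟩

/-- The exterior region. -/
def ext0 : Set E3 := (closedBall c0 2 ∪ closedBall 0 6)ᶜ

lemma frontier_ext0 : frontier ext0 = sphere c0 2 ∪ sphere 0 6 := by
  rw [ext0, frontier_compl]
  have hcl : IsClosed (closedBall c0 2 ∪ closedBall (0 : E3) 6) :=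
    isClosed_closedBall.union isClosed_closedBall
  have hint : interior (closedBall c0 2 ∪ closedBall (0 : E3) 6) = ball c0 2 ∪ ball 0 6 := by
    apply Subset.antisymm
    · intro x hx
      have hx' := interior_subset hx
      have hd := dist_c0_ge x
      rcases hx' with h | h
      · left
        rw [← interior_closedBall c0 (by norm_num : (2 : ℝ) ≠ 0), mem_interior]
        refine ⟨interior (closedBall c0 2 ∪ closedBall (0 : E3) 6) ∩ (closedBall 0 6)ᶜ, ?_,
          isOpen_interior.inter isClosed_closedBall.isOpen_compl, hx, ?_⟩
        · rintro y ⟨hy1, hy2⟩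
          rcases interior_subset hy1 with h' | h'
          · exact h'
          · exact absurd h' hy2
        · simp only [mem_compl_iff, mem_closedBall, dist_zero_right, not_le] at *
          linarith
      · right
        rw [← interior_closedBall (0 : E3) (by norm_num : (6 : ℝ) ≠ 0), mem_interior]
        refine ⟨interior (closedBall c0 2 ∪ closedBall (0 : E3) 6) ∩ (closedBall c0 2)ᶜ, ?_,
          isOpen_interior.inter isClosed_closedBall.isOpen_compl, hx, ?_⟩
        · rintro y ⟨hy1, hy2⟩
          rcases interior_subset hy1 with h' | h'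
          · exact absurd h' hy2
          · exact h'
        · simp only [mem_compl_iff, mem_closedBall, dist_zero_right, not_le] at *
          linarith
    · exact interior_maximal (union_subset_union ball_subset_closedBall ball_subset_closedBall)
        (isOpen_ball.union isOpen_ball)
  rw [hcl.frontier_eq, hint]
  ext x
  have := dist_c0_ge x
  simp only [Set.mem_sdiff, mem_union, mem_closedBall, mem_ball, mem_sphere, dist_zero_right, not_or,
    not_lt]
  constructor
  · rintro ⟨h1 | h1, h2, h3⟩
    · left; linarith
    · right; linarith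
  · rintro (h | h)
    · refine ⟨Or.inl h.le, h.ge, ?_⟩
      linarith
    · refine ⟨Or.inr h.le, ?_, h.ge⟩
      linarith

lemma disjoint_cells : Disjoint cellA cellB := by
  rw [Set.disjoint_left]
  rintro x (h | h) h'
  · have := dist_c0_ge x
    simp only [cellB, Set.mem_sdiff, mem_closedBall, mem_ball, dist_zero_right, not_le] at h h'
    linarith [h'.1]
  · simp only [cellB, Set.mem_sdiff, mem_closedBall, mem_ball, dist_zero_right, not_le] at h h'
    linarith [h'.2]

lemma cellB_nonempty : cellB.Nonempty := by
  refine ⟨(EuclideanSpace.single 0 4 : E3), ?_⟩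
  simp only [cellB, Set.mem_sdiff, mem_closedBall, mem_ball, dist_zero_right, not_le]
  simp
  norm_num

/-- The cluster. -/
def cluster : Cluster 2 where
  cell := ![cellA, cellB]
  isOpen_cell := by
    intro i
    fin_cases i
    · exact isOpen_cellA
    · exact isOpen_cellB
  disjoint_cell := by
    intro i j hij
    fin_cases i <;> fin_cases j
    · exact absurd rfl hij
    · exact disjoint_cells
    · exact disjoint_cells.symm
    · exact absurd rfl hij
  volume_pos := by
    intro i
    fin_cases i
    · exact isOpen_cellA.measure_pos _ ⟨0, Or.inr (by simp)⟩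
    · exact isOpen_cellB.measure_pos _ cellB_nonempty
  volume_lt_top := by
    intro i
    fin_cases i
    · exact (isBounded_ball.union isBounded_ball).measure_lt_top
    · exact (isBounded_ball.subset sdiff_subset).measure_lt_top

lemma region_zero : cluster.region 0 = cellA := by
  simp [Cluster.region, cluster]

lemma region_one : cluster.region 1 = cellB := by
  simp [Cluster.region, cluster]

lemma region_two : cluster.region 2 = ext0 := by
  have : ¬ (((2 : Fin 3) : ℕ) < 2) := by decide
  rw [Cluster.region, dif_neg this]
  have : (⋃ j, cluster.cell j) = cellA ∪ cellB := by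
    ext x
    simp [cluster, Fin.exists_fin_two]
  rw [this, closure_cells]
  rfl

lemma interface_01 : cluster.interface 0 1 = sphere 0 3 := by
  rw [Cluster.interface, region_zero, region_one, frontier_cellA, frontier_cellB]
  ext x
  have := dist_c0_ge x
  simp only [mem_inter_iff, mem_union, mem_sphere, dist_zero_right]
  constructor
  · rintro ⟨h1 | h1, h2 | h2⟩ <;> linarith
  · intro h
    exact ⟨Or.inr h, Or.inl h⟩

lemma interface_02 : cluster.interface 0 2 = sphere c0 2 := by
  rw [Cluster.interface, region_zero, region_two, frontier_cellA, frontier_ext0]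
  ext x
  have := dist_c0_ge x
  simp only [mem_inter_iff, mem_union, mem_sphere, dist_zero_right]
  constructor
  · rintro ⟨h1 | h1, h2 | h2⟩ <;> linarith
  · intro h
    exact ⟨Or.inl h, Or.inl h⟩

lemma interface_12 : cluster.interface 1 2 = sphere 0 6 := by
  rw [Cluster.interface, region_one, region_two, frontier_cellB, frontier_ext0]
  ext x
  have := dist_c0_ge x
  simp only [mem_inter_iff, mem_union, mem_sphere, dist_zero_right]
  constructor
  · rintro ⟨h1 | h1, h2 | h2⟩ <;> linarith
  · intro h
    exact ⟨Or.inr h, Or.inr h⟩

lemma interface_comm {k : ℕ} (Ω : Cluster k) (i j : Fin (k + 1)) :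
    Ω.interface i j = Ω.interface j i := inter_comm _ _

lemma surface_eq : cluster.surface = sphere 0 3 ∪ sphere c0 2 ∪ sphere 0 6 := by
  ext x
  constructor
  · rintro ⟨i, j, hij, hx⟩
    fin_cases i <;> fin_cases j
    · exact absurd rfl hij
    · left; left; rw [← interface_01]; exact hx
    · left; right; rw [← interface_02]; exact hx
    · left; left; rw [← interface_01, interface_comm]; exact hx
    · exact absurd rfl hij
    · right; rw [← interface_12]; exact hx
    · left; right; rw [← interface_02, interface_comm]; exact hx
    · right; rw [← interface_12, interface_comm]; exact hx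
    · exact absurd rfl hij
  · rintro ((hx | hx) | hx)
    · exact ⟨0, 1, by decide, by rw [interface_01]; exact hx⟩
    · exact ⟨0, 2, by decide, by rw [interface_02]; exact hx⟩
    · exact ⟨1, 2, by decide, by rw [interface_12]; exact hx⟩

lemma areaUnder_eq (f : E3 → E3) :
    cluster.areaUnder f = μH[2] (f '' sphere 0 3) + μH[2] (f '' sphere c0 2) +
      μH[2] (f '' sphere 0 6) := by
  rw [Cluster.areaUnder, Fin.sum_univ_three]
  have e0 : Finset.univ.filter (fun j : Fin 3 => (0 : Fin 3) < j) = {1, 2} := by decide
  have e1 : Finset.univ.filter (fun j : Fin 3 => (1 : Fin 3) < j) = {2} := by decide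
  have e2 : Finset.univ.filter (fun j : Fin 3 => (2 : Fin 3) < j) = ∅ := by decide
  rw [e0, e1, e2, Finset.sum_pair (by decide), Finset.sum_singleton, Finset.sum_empty,
    interface_01, interface_02, interface_12, add_zero]

lemma sphericalInterfaces : cluster.SphericalInterfaces := by
  intro i j hij
  left
  fin_cases i <;> fin_cases j
  · exact absurd rfl hij
  · exact ⟨0, 3, by norm_num, interface_01.subset⟩
  · exact ⟨c0, 2, by norm_num, interface_02.subset⟩
  · exact ⟨0, 3, by norm_num, (interface_comm _ _ _).subset.trans interface_01.subset⟩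
  · exact absurd rfl hij
  · exact ⟨0, 6, by norm_num, interface_12.subset⟩
  · exact ⟨c0, 2, by norm_num, (interface_comm _ _ _).subset.trans interface_02.subset⟩
  · exact ⟨0, 6, by norm_num, (interface_comm _ _ _).subset.trans interface_12.subset⟩
  · exact absurd rfl hij

end Pool.Agent.J6H68.Kusner
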