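import Pool.Agent.J6H68.Kusner.Regular
import Pool.Agent.J6H68.Kusner.Example

open MeasureTheory Set Metric Filter Topology
open scoped ENNReal ContDiff NNReal

namespace Pool.Agent.J6H68.Kusner

lemma abs_norm_sub_lt {x y : E3} (h : y ∈ ball x 1) : |‖y‖ - ‖x‖| < 1 := by
  refine lt_of_le_of_lt (abs_norm_sub_norm_le y x) ?_
  rwa [← dist_eq_norm]

lemma plateauLaws : cluster.PlateauLaws := by
  intro x hx
  left
  rw [surface_eq] at hx ⊢
  rcases hx with (hx | hx) | hx
  · refine locallyModelledOn_sphere _ 0 x 3 1 (by norm_num) one_pos hx ?_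
    intro y hy
    have h1 := abs_norm_sub_lt hy
    have h2 := dist_c0_ge y
    simp only [mem_sphere, dist_zero_right, mem_union] at hx ⊢
    rw [hx, abs_lt] at h1
    constructor
    · rintro ((h | h) | h)
      · exact h
      · linarith
      · linarith
    · intro h
      exact Or.inl (Or.inl h)
  · refine locallyModelledOn_sphere _ c0 x 2 1 (by norm_num) one_pos hx ?_
    intro y hy
    have h2 := dist_c0_ge y
    have h3 : dist y c0 ≤ dist y x + dist x c0 := dist_triangle _ _ _
    simp only [mem_sphere, dist_zero_right, mem_union, mem_ball] at hx hy ⊢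
    constructor
    · rintro ((h | h) | h)
      · linarith
      · exact h
      · linarith
    · intro h
      exact Or.inl (Or.inr h)
  · refine locallyModelledOn_sphere _ 0 x 6 1 (by norm_num) one_pos hx ?_
    intro y hy
    have h1 := abs_norm_sub_lt hy
    have h2 := dist_c0_ge y
    simp only [mem_sphere, dist_zero_right, mem_union] at hx ⊢
    rw [hx, abs_lt] at h1
    constructor
    · rintro ((h | h) | h)
      · linarith
      · linarith
      · exact h
    · intro h
      exact Or.inr h

lemma insideOutside_01 : cluster.InsideOutside 0 1 0 3 := by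
  intro x hx
  rw [interface_01, mem_sphere, dist_zero_right] at hx
  refine ⟨ball x 1, isOpen_ball, mem_ball_self one_pos, ?_, ?_⟩
  · rintro y ⟨hy1, hy2⟩
    have h1 := abs_norm_sub_lt hy1
    have h2 := dist_c0_ge y
    rw [hx, abs_lt] at h1
    rw [region_zero] at hy2
    rcases hy2 with h | h
    · rw [mem_ball] at h
      linarith
    · exact h
  · rintro y ⟨hy1, hy2⟩
    rw [region_one] at hy2
    exact hy2.2

lemma insideOutside_02 : cluster.InsideOutside 0 2 c0 2 := by
  intro x hx
  rw [interface_02, mem_sphere] at hx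
  refine ⟨ball x 1, isOpen_ball, mem_ball_self one_pos, ?_, ?_⟩
  · rintro y ⟨hy1, hy2⟩
    have h2 := dist_c0_ge y
    have h3 : dist y c0 ≤ dist y x + dist x c0 := dist_triangle _ _ _
    rw [mem_ball] at hy1
    rw [region_zero] at hy2
    rcases hy2 with h | h
    · exact h
    · rw [mem_ball, dist_zero_right] at h
      linarith
  · rintro y ⟨hy1, hy2⟩
    rw [region_two] at hy2
    exact fun h => hy2 (Or.inl h)

lemma insideOutside_12 : cluster.InsideOutside 1 2 0 6 := by
  intro x hx
  refine ⟨univ, isOpen_univ, mem_univ _, ?_, ?_⟩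
  · rintro y ⟨hy1, hy2⟩
    rw [region_one] at hy2
    exact hy2.1
  · rintro y ⟨hy1, hy2⟩
    rw [region_two] at hy2
    exact fun h => hy2 (Or.inr h)

lemma youngLaplace : cluster.YoungLaplace := by
  refine ⟨![1, 1 / 3, 0], rfl, ?_⟩
  intro i j hij
  right; right
  fin_cases i <;> fin_cases j
  · exact absurd rfl hij
  · refine ⟨0, 3, by norm_num, interface_01.subset, Or.inl ⟨insideOutside_01, ?_⟩⟩
    simp; norm_num
  · refine ⟨c0, 2, by norm_num, interface_02.subset, Or.inl ⟨insideOutside_02, ?_⟩⟩
    simp
  · refine ⟨0, 3, by norm_num, (interface_comm _ _ _).subset.trans interface_01.subset,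
      Or.inr ⟨insideOutside_01, ?_⟩⟩
    simp; norm_num
  · exact absurd rfl hij
  · refine ⟨0, 6, by norm_num, interface_12.subset, Or.inl ⟨insideOutside_12, ?_⟩⟩
    simp; norm_num
  · refine ⟨c0, 2, by norm_num, (interface_comm _ _ _).subset.trans interface_02.subset,
      Or.inr ⟨insideOutside_02, ?_⟩⟩
    simp
  · refine ⟨0, 6, by norm_num, (interface_comm _ _ _).subset.trans interface_12.subset,
      Or.inr ⟨insideOutside_12, ?_⟩⟩
    simp; norm_num
  · exact absurd rfl hij

end Pool.Agent.J6H68.Kusner
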