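import Pool.Agent.J6H68.Kusner.Example

open MeasureTheory Set Metric Filter Topology
open scoped ENNReal ContDiff NNReal

namespace Pool.Agent.J6H68.Kusner

/-- Bump function around the distant ball. -/
noncomputable def bA : ContDiffBump c0 := ⟨3, 4, by norm_num, by norm_num⟩
/-- Bump function around the ball of radius `3`. -/
noncomputable def bB : ContDiffBump (0 : E3) := ⟨4, 5, by norm_num, by norm_num⟩
/-- Bump function around the ball of radius `6`. -/
noncomputable def bC : ContDiffBump (0 : E3) := ⟨7, 8, by norm_num, by norm_num⟩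
/-- Bump function inside the ball of radius `6`. -/
noncomputable def bD : ContDiffBump (0 : E3) := ⟨5, 11 / 2, by norm_num, by norm_num⟩

/-- The vector fields used in the deformation. -/
noncomputable def gA (x : E3) : E3 := bA x • (x - c0)
/-- The vector fields used in the deformation. -/
noncomputable def gB (x : E3) : E3 := bB x • x
/-- The vector fields used in the deformation. -/
noncomputable def gC (x : E3) : E3 := bC x • x
/-- The vector fields used in the deformation. -/
noncomputable def gD (x : E3) : E3 := bD x • x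

lemma gA_cd : ContDiff ℝ ∞ gA := bA.contDiff.smul (contDiff_id.sub contDiff_const)
lemma gB_cd : ContDiff ℝ ∞ gB := bB.contDiff.smul contDiff_id
lemma gC_cd : ContDiff ℝ ∞ gC := bC.contDiff.smul contDiff_id
lemma gD_cd : ContDiff ℝ ∞ gD := bD.contDiff.smul contDiff_id

lemma exists_lip : ∃ K : ℝ≥0, LipschitzWith K gA ∧ LipschitzWith K gB ∧ LipschitzWith K gC ∧
    LipschitzWith K gD := by
  obtain ⟨k1, h1⟩ := ContDiff.lipschitzWith_of_hasCompactSupport
    (f := gA) (bA.hasCompactSupport.smul_right) gA_cd (by simp)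
  obtain ⟨k2, h2⟩ := ContDiff.lipschitzWith_of_hasCompactSupport
    (f := gB) (bB.hasCompactSupport.smul_right) gB_cd (by simp)
  obtain ⟨k3, h3⟩ := ContDiff.lipschitzWith_of_hasCompactSupport
    (f := gC) (bC.hasCompactSupport.smul_right) gC_cd (by simp)
  obtain ⟨k4, h4⟩ := ContDiff.lipschitzWith_of_hasCompactSupport
    (f := gD) (bD.hasCompactSupport.smul_right) gD_cd (by simp)
  refine ⟨k1 + k2 + k3 + k4, h1.weaken ?_, h2.weaken ?_, h3.weaken ?_, h4.weaken ?_⟩
  · rw [add_assoc, add_assoc]; exact le_self_add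
  · rw [add_comm k1 k2, add_assoc, add_assoc]; exact le_self_add
  · rw [add_comm (k1 + k2) k3, add_assoc]; exact le_self_add
  · exact le_add_self

/-- The displacement. -/
noncomputable def disp (a b c : ℝ) (x : E3) : E3 :=
  a • gA x + b • gB x + c • (gC x - gD x)

/-- The deformation map with parameters. -/
noncomputable def dmap (a b c : ℝ) (x : E3) : E3 := x + disp a b c x

lemma disp_lip {K : ℝ≥0} (hA : LipschitzWith K gA) (hB : LipschitzWith K gB)
    (hC : LipschitzWith K gC) (hD : LipschitzWith K gD) {a b c ε : ℝ} (ha : |a| ≤ ε)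
    (hb : |b| ≤ ε) (hc : |c| ≤ ε) (hε : ε * (16 * (K + 1)) ≤ 1) :
    LipschitzWith (1 / 4) (disp a b c) := by
  have hε0 : 0 ≤ ε := (abs_nonneg a).trans ha
  apply LipschitzWith.of_dist_le_mul
  intro x y
  have h1 := hA.dist_le_mul x y
  have h2 := hB.dist_le_mul x y
  have h3 := hC.dist_le_mul x y
  have h4 := hD.dist_le_mul x y
  rw [dist_eq_norm] at h1 h2 h3 h4
  rw [dist_eq_norm]
  have e : disp a b c x - disp a b c y = a • (gA x - gA y) + b • (gB x - gB y) +
      (c • (gC x - gC y) - c • (gD x - gD y)) := by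
    simp only [disp, smul_sub]
    abel
  rw [e]
  have n1 := norm_add_le (a • (gA x - gA y) + b • (gB x - gB y))
    (c • (gC x - gC y) - c • (gD x - gD y))
  have n2 := norm_add_le (a • (gA x - gA y)) (b • (gB x - gB y))
  have n3 := norm_sub_le (c • (gC x - gC y)) (c • (gD x - gD y))
  rw [norm_smul, Real.norm_eq_abs] at n2 n3
  rw [norm_smul, Real.norm_eq_abs] at n2 n3
  set D := dist x y with hDdef
  have hD0 : 0 ≤ D := dist_nonneg
  have hKD : 0 ≤ (K : ℝ) * D := by positivity
  have m1 : |a| * ‖gA x - gA y‖ ≤ ε * (K * D) := mul_le_mul ha h1 (norm_nonneg _) hε0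
  have m2 : |b| * ‖gB x - gB y‖ ≤ ε * (K * D) := mul_le_mul hb h2 (norm_nonneg _) hε0
  have m3 : |c| * ‖gC x - gC y‖ ≤ ε * (K * D) := mul_le_mul hc h3 (norm_nonneg _) hε0
  have m4 : |c| * ‖gD x - gD y‖ ≤ ε * (K * D) := mul_le_mul hc h4 (norm_nonneg _) hε0
  have m5 : 4 * (ε * (K * D)) ≤ (1 / 4) * D := by
    have : 16 * (ε * K) ≤ 1 := by nlinarith [K.coe_nonneg]
    nlinarith
  have e2 : ((1 / 4 : ℝ≥0) : ℝ) = 1 / 4 := by push_cast; norm_num
  rw [e2]
  linarith

lemma far_of_near {x : E3} (h : dist x c0 < 4) : 16 < ‖x‖ := by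
  have := dist_c0_ge x
  linarith

lemma gA_far {x : E3} (h : 4 ≤ dist x c0) : gA x = 0 := by
  have : bA x = 0 := bA.zero_of_le_dist h
  rw [gA, this, zero_smul]

lemma gBCD_far {x : E3} (h : 8 ≤ ‖x‖) : gB x = 0 ∧ gC x = 0 ∧ gD x = 0 := by
  have h1 : bB x = 0 := bB.zero_of_le_dist (by rw [dist_zero_right]; show (5 : ℝ) ≤ _; linarith)
  have h2 : bC x = 0 := bC.zero_of_le_dist (by rw [dist_zero_right]; exact h)
  have h3 : bD x = 0 := bD.zero_of_le_dist (by rw [dist_zero_right]; show (11 / 2 : ℝ) ≤ _; linarith)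
  refine ⟨?_, ?_, ?_⟩
  · rw [gB, h1, zero_smul]
  · rw [gC, h2, zero_smul]
  · rw [gD, h3, zero_smul]

lemma dmap_nearA (a b c : ℝ) {x : E3} (h : dist x c0 ≤ 3) :
    dmap a b c x = c0 + (1 + a) • (x - c0) := by
  obtain ⟨h1, h2, h3⟩ := gBCD_far (x := x) (by linarith [far_of_near (x := x) (by linarith)])
  have h4 : bA x = 1 := bA.one_of_mem_closedBall h
  rw [dmap, disp, h1, h2, h3, gA, h4, one_smul, smul_zero, sub_zero, smul_zero, add_zero, add_zero,
    add_smul, one_smul]
  abel

lemma dmap_nearB (a b c : ℝ) {x : E3} (h : ‖x‖ ≤ 4) : dmap a b c x = (1 + b) • x := by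
  have hx := dist_c0_ge x
  have h0 : gA x = 0 := gA_far (by linarith)
  have h1 : bB x = 1 := bB.one_of_mem_closedBall (by rw [mem_closedBall, dist_zero_right]; exact h)
  have h2 : bC x = 1 := bC.one_of_mem_closedBall
    (by rw [mem_closedBall, dist_zero_right]; show _ ≤ (7 : ℝ); linarith)
  have h3 : bD x = 1 := bD.one_of_mem_closedBall
    (by rw [mem_closedBall, dist_zero_right]; show _ ≤ (5 : ℝ); linarith)
  rw [dmap, disp, h0, gB, gC, gD, h1, h2, h3, one_smul, smul_zero, sub_self, smul_zero, add_zero,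
    zero_add, add_smul, one_smul]

/-- The radial factor away from the distant ball. -/
noncomputable def rad (b c : ℝ) (x : E3) : ℝ := b * bB x + c * (bC x - bD x)

lemma disp_radial (a b c : ℝ) {x : E3} (h : 4 ≤ dist x c0) :
    disp a b c x = rad b c x • x := by
  rw [disp, gA_far h, gB, gC, gD, rad, smul_zero, zero_add, ← sub_smul, smul_smul, smul_smul,
    ← add_smul]

lemma rad_le {b c ε : ℝ} (hb : |b| ≤ ε) (hc : |c| ≤ ε) (x : E3) : |rad b c x| ≤ 2 * ε := by
  have hε0 : 0 ≤ ε := (abs_nonneg b).trans hb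
  have h1 : |bB x| ≤ 1 := by rw [abs_of_nonneg bB.nonneg]; exact bB.le_one
  have h2 : |bC x - bD x| ≤ 1 := by
    have := bC.nonneg (x := x)
    have := bC.le_one (x := x)
    have := bD.nonneg (x := x)
    have := bD.le_one (x := x)
    rw [abs_le]
    constructor <;> linarith
  rw [rad]
  refine (abs_add_le _ _).trans ?_
  rw [abs_mul, abs_mul]
  have h3 : |b| * |bB x| ≤ ε * 1 := mul_le_mul hb h1 (abs_nonneg _) hε0
  have h4 : |c| * |bC x - bD x| ≤ ε * 1 := mul_le_mul hc h2 (abs_nonneg _) hε0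
  linarith

lemma rad_six (b c : ℝ) {x : E3} (h1 : 11 / 2 ≤ ‖x‖) (h2 : ‖x‖ ≤ 7) : rad b c x = c := by
  have e1 : bB x = 0 := bB.zero_of_le_dist (by rw [dist_zero_right]; show (5 : ℝ) ≤ _; linarith)
  have e2 : bC x = 1 := bC.one_of_mem_closedBall (by rw [mem_closedBall, dist_zero_right]; exact h2)
  have e3 : bD x = 0 := bD.zero_of_le_dist (by rw [dist_zero_right]; exact h1)
  rw [rad, e1, e2, e3]
  ring

lemma dmap_six (a b c : ℝ) {x : E3} (h : ‖x‖ = 6) : dmap a b c x = (1 + c) • x := by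
  have hx := dist_c0_ge x
  rw [dmap, disp_radial a b c (by linarith), rad_six b c (by linarith) (by linarith), add_smul,
    one_smul]

/-- Images of sets defined by the distance to a point under a homothety. -/
lemma image_dist (f : E3 → E3) (p : E3) (l : ℝ) (hl : 0 < l) (T : Set ℝ)
    (hf : ∀ x, dist x p ∈ T → f x = p + l • (x - p)) :
    f '' {x | dist x p ∈ T} = {y | dist y p / l ∈ T} := by
  have key : ∀ x, dist (p + l • (x - p)) p = l * dist x p := by
    intro x
    rw [dist_eq_norm, dist_eq_norm, add_sub_cancel_left, norm_smul, Real.norm_of_nonneg hl.le]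
  ext y
  constructor
  · rintro ⟨x, hx, rfl⟩
    rw [mem_setOf_eq] at hx ⊢
    rw [hf x hx, key, mul_div_cancel_left₀ _ hl.ne']
    exact hx
  · intro hy
    have e : p + l • ((p + l⁻¹ • (y - p)) - p) = y := by
      rw [add_sub_cancel_left, smul_smul, mul_inv_cancel₀ hl.ne', one_smul]
      abel
    have hd : dist (p + l⁻¹ • (y - p)) p = dist y p / l := by
      rw [dist_eq_norm, dist_eq_norm, add_sub_cancel_left, norm_smul,
        Real.norm_of_nonneg (inv_nonneg.2 hl.le), div_eq_inv_mul]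
    refine ⟨p + l⁻¹ • (y - p), ?_, ?_⟩
    · rw [mem_setOf_eq, hd]; exact hy
    · rw [hf _ (by rw [hd]; exact hy), e]

lemma image_ball_of (f : E3 → E3) (p : E3) (l r : ℝ) (hl : 0 < l)
    (hf : ∀ x, dist x p ≤ r → f x = p + l • (x - p)) :
    f '' ball p r = ball p (r * l) := by
  have h := image_dist f p l hl (Iio r) (fun x hx => hf x (le_of_lt hx))
  have e1 : {x | dist x p ∈ Iio r} = ball p r := rfl
  rw [e1] at h
  rw [h]
  ext y
  simp only [mem_setOf_eq, mem_Iio, mem_ball]
  rw [div_lt_iff₀ hl]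

lemma image_closedBall_of (f : E3 → E3) (p : E3) (l r : ℝ) (hl : 0 < l)
    (hf : ∀ x, dist x p ≤ r → f x = p + l • (x - p)) :
    f '' closedBall p r = closedBall p (r * l) := by
  have h := image_dist f p l hl (Iic r) (fun x hx => hf x hx)
  have e1 : {x | dist x p ∈ Iic r} = closedBall p r := rfl
  rw [e1] at h
  rw [h]
  ext y
  simp only [mem_setOf_eq, mem_Iic, mem_closedBall]
  rw [div_le_iff₀ hl]

lemma image_sphere_of (f : E3 → E3) (p : E3) (l r : ℝ) (hl : 0 < l)
    (hf : ∀ x, dist x p = r → f x = p + l • (x - p)) :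
    f '' sphere p r = sphere p (r * l) := by
  have h := image_dist f p l hl {r} (fun x hx => hf x hx)
  have e1 : {x | dist x p ∈ ({r} : Set ℝ)} = sphere p r := rfl
  rw [e1] at h
  rw [h]
  ext y
  simp only [mem_setOf_eq, mem_singleton_iff, mem_sphere]
  rw [div_eq_iff hl.ne']

section images

variable {a b c ε : ℝ}

lemma image_sphere_c0 (ha : |a| < 1) : dmap a b c '' sphere c0 2 = sphere c0 (2 * (1 + a)) := by
  have := abs_lt.1 ha
  exact image_sphere_of _ _ _ _ (by linarith) fun x hx => dmap_nearA a b c (by linarith)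

lemma image_ball_c0 (ha : |a| < 1) : dmap a b c '' ball c0 2 = ball c0 (2 * (1 + a)) := by
  have := abs_lt.1 ha
  exact image_ball_of _ _ _ _ (by linarith) fun x hx => dmap_nearA a b c (by linarith)

lemma image_sphere_three (hb : |b| < 1) : dmap a b c '' sphere 0 3 = sphere 0 (3 * (1 + b)) := by
  have := abs_lt.1 hb
  refine image_sphere_of _ _ _ _ (by linarith) fun x hx => ?_
  rw [dist_zero_right] at hx
  rw [dmap_nearB a b c (by linarith), zero_add, sub_zero]

lemma image_ball_three (hb : |b| < 1) : dmap a b c '' ball 0 3 = ball 0 (3 * (1 + b)) := by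
  have := abs_lt.1 hb
  refine image_ball_of _ _ _ _ (by linarith) fun x hx => ?_
  rw [dist_zero_right] at hx
  rw [dmap_nearB a b c (by linarith), zero_add, sub_zero]

lemma image_closedBall_three (hb : |b| < 1) :
    dmap a b c '' closedBall 0 3 = closedBall 0 (3 * (1 + b)) := by
  have := abs_lt.1 hb
  refine image_closedBall_of _ _ _ _ (by linarith) fun x hx => ?_
  rw [dist_zero_right] at hx
  rw [dmap_nearB a b c (by linarith), zero_add, sub_zero]

lemma image_sphere_six (hc : |c| < 1) : dmap a b c '' sphere 0 6 = sphere 0 (6 * (1 + c)) := by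
  have := abs_lt.1 hc
  refine image_sphere_of _ _ _ _ (by linarith) fun x hx => ?_
  rw [dist_zero_right] at hx
  rw [dmap_six a b c hx, zero_add, sub_zero]

lemma norm_dmap_compare (hL : LipschitzWith (1 / 4) (disp a b c)) (ha : |a| ≤ ε) (hb : |b| ≤ ε)
    (hc : |c| ≤ ε) (hε : ε ≤ 1 / 16) (x : E3) (hx0 : x ≠ 0) (h : 4 ≤ dist x c0) :
    |(6 * (1 + c) - ‖dmap a b c x‖) - (6 - ‖x‖)| ≤ (1 / 4) * |6 - ‖x‖| := by
  have hxn : 0 < ‖x‖ := norm_pos_iff.2 hx0
  have hr := rad_le hb hc x
  have hr2 : 0 ≤ 1 + rad b c x := by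
    have := abs_le.1 hr
    linarith
  have h1 : ‖dmap a b c x‖ = (1 + rad b c x) * ‖x‖ := by
    rw [dmap, disp_radial a b c h]
    have : x + rad b c x • x = (1 + rad b c x) • x := by rw [add_smul, one_smul]
    rw [this, norm_smul, Real.norm_of_nonneg hr2]
  set u : E3 := (6 / ‖x‖) • x with hu
  have hun : ‖u‖ = 6 := by
    rw [hu, norm_smul, Real.norm_of_nonneg (by positivity)]
    field_simp
  have hud := dist_c0_ge u
  have h2 := hL.dist_le_mul u x
  rw [disp_radial a b c h, disp_radial a b c (x := u) (by linarith),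
    rad_six b c (by linarith) (by linarith), dist_eq_norm, dist_eq_norm] at h2
  have e1 : c • u - rad b c x • x = (c * (6 / ‖x‖) - rad b c x) • x := by
    rw [hu, smul_smul, sub_smul]
  have e2 : u - x = (6 / ‖x‖ - 1) • x := by
    rw [hu, sub_smul, one_smul]
  rw [e1, e2, norm_smul, norm_smul, Real.norm_eq_abs, Real.norm_eq_abs] at h2
  have e3 : |c * (6 / ‖x‖) - rad b c x| * ‖x‖ = |6 * c - rad b c x * ‖x‖| := by
    rw [← abs_of_pos hxn, ← abs_mul, abs_of_pos hxn]
    congr 1
    field_simp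
  have e4 : |6 / ‖x‖ - 1| * ‖x‖ = |6 - ‖x‖| := by
    rw [← abs_of_pos hxn, ← abs_mul, abs_of_pos hxn]
    congr 1
    field_simp
  have e5 : ((1 / 4 : ℝ≥0) : ℝ) = 1 / 4 := by push_cast; norm_num
  rw [e3, e4, e5] at h2
  rw [h1]
  have e6 : (6 * (1 + c) - (1 + rad b c x) * ‖x‖) - (6 - ‖x‖) = 6 * c - rad b c x * ‖x‖ := by ring
  rw [e6]
  exact h2

lemma norm_dmap_lt_iff (hL : LipschitzWith (1 / 4) (disp a b c)) (ha : |a| ≤ ε) (hb : |b| ≤ ε)
    (hc : |c| ≤ ε) (hε : ε ≤ 1 / 16) (x : E3) :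
    ‖dmap a b c x‖ < 6 * (1 + c) ↔ ‖x‖ < 6 := by
  have hc' := abs_le.1 hc
  by_cases hx0 : x = 0
  · subst hx0
    rw [dmap_nearB a b c (by simp), smul_zero, norm_zero]
    constructor
    · intro _; norm_num
    · intro _; linarith
  by_cases h : 4 ≤ dist x c0
  · have hcmp := norm_dmap_compare hL ha hb hc hε x hx0 h
    constructor
    · intro h1
      by_contra h2
      push Not at h2
      rw [abs_of_nonpos (by linarith : 6 - ‖x‖ ≤ 0), abs_le] at hcmp
      linarith [hcmp.2]
    · intro h1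
      rw [abs_of_pos (by linarith : 0 < 6 - ‖x‖), abs_le] at hcmp
      linarith [hcmp.1]
  · push Not at h
    have hfar := far_of_near h
    obtain ⟨g1, g2, g3⟩ := gBCD_far (x := x) (by linarith)
    have h1 : dmap a b c x = x + a • gA x := by
      rw [dmap, disp, g1, g2, g3, smul_zero, sub_zero, smul_zero, add_zero, add_zero]
    have h2 : ‖a • gA x‖ ≤ 1 := by
      rw [norm_smul, gA, norm_smul, Real.norm_eq_abs, Real.norm_of_nonneg bA.nonneg, ← dist_eq_norm]
      have k1 : bA x * dist x c0 ≤ 1 * 4 := mul_le_mul bA.le_one h.le dist_nonneg zero_le_one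
      have k2 : |a| * (bA x * dist x c0) ≤ (1 / 16) * (1 * 4) :=
        mul_le_mul (ha.trans hε) k1 (mul_nonneg bA.nonneg dist_nonneg) (by norm_num)
      linarith
    have h3 : 15 < ‖dmap a b c x‖ := by
      rw [h1]
      have := norm_sub_le (x + a • gA x) (a • gA x)
      rw [add_sub_cancel_right] at this
      linarith
    constructor
    · intro h4; linarith
    · intro h4; linarith

lemma image_ball_six (hL : LipschitzWith (1 / 4) (disp a b c)) (ha : |a| ≤ ε) (hb : |b| ≤ ε)
    (hc : |c| ≤ ε) (hε : ε ≤ 1 / 16) (hsurj : Function.Surjective (dmap a b c)) :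
    dmap a b c '' ball 0 6 = ball 0 (6 * (1 + c)) := by
  ext y
  constructor
  · rintro ⟨x, hx, rfl⟩
    rw [mem_ball, dist_zero_right] at hx ⊢
    exact (norm_dmap_lt_iff hL ha hb hc hε x).2 hx
  · intro hy
    obtain ⟨x, rfl⟩ := hsurj y
    rw [mem_ball, dist_zero_right] at hy
    exact ⟨x, by rw [mem_ball, dist_zero_right]; exact (norm_dmap_lt_iff hL ha hb hc hε x).1 hy, rfl⟩

end images

end Pool.Agent.J6H68.Kusner
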