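import Pool.Agent.J6H68.Kusner.Defs

open MeasureTheory Set Metric Filter Topology
open scoped ENNReal ContDiff NNReal

namespace Pool.Agent.J6H68.Kusner

/-- There is a linear isometry of space mapping a given unit vector to the third basis vector. -/
lemma exists_isometry (n : E3) (hn : ‖n‖ = 1) :
    ∃ L : E3 ≃ₗᵢ[ℝ] E3, L n = EuclideanSpace.single 2 1 := by
  have h : ‖n‖ = ‖(EuclideanSpace.single 2 1 : E3)‖ := by simp [hn]
  exact ⟨(ℝ ∙ (n - (EuclideanSpace.single 2 1 : E3)))ᗮ.reflection, Submodule.reflection_sub h⟩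

lemma coord_eq_inner (L : E3 ≃ₗᵢ[ℝ] E3) (n : E3) (hL : L n = EuclideanSpace.single 2 1) (v : E3) :
    (L v) 2 = inner ℝ n v := by
  have h := L.inner_map_map n v
  rw [hL] at h
  rw [← h]
  simp [PiLp.inner_apply]

/-- A point of a round sphere that is isolated from the rest of the set is a regular point. -/
lemma locallyModelledOn_sphere (M : Set E3) (a x : E3) (r δ : ℝ) (hr : 0 < r) (hδ : 0 < δ)
    (hx : x ∈ sphere a r) (hM : ∀ y ∈ ball x δ, (y ∈ M ↔ y ∈ sphere a r)) :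
    LocallyModelledOn M x planeCone := by
  set n : E3 := r⁻¹ • (x - a) with hn
  have hxa : ‖x - a‖ = r := by rwa [mem_sphere_iff_norm] at hx
  have hnn : ‖n‖ = 1 := by
    rw [hn, norm_smul, hxa, Real.norm_of_nonneg (inv_nonneg.2 hr.le), inv_mul_cancel₀ hr.ne']
  have hnin : inner ℝ n n = 1 := by rw [real_inner_self_eq_norm_sq, hnn]; norm_num
  obtain ⟨L, hL⟩ := exists_isometry n hnn
  have hxan : x - a = r • n := by rw [hn, smul_smul, mul_inv_cancel₀ hr.ne', one_smul]
  -- the straightening map and its inverse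
  let S : E3 → ℝ := fun y => inner ℝ n (y - a)
  let F₀ : E3 → E3 := fun y => (y - a) - S y • n + (‖y - a‖ - r) • n
  let P : E3 → E3 := fun v => v - (inner ℝ n v : ℝ) • n
  let Q : E3 → ℝ := fun v => (r + inner ℝ n v) ^ 2 - ‖P v‖ ^ 2
  let G₀ : E3 → E3 := fun v => a + P v + Real.sqrt (Q v) • n
  have hPn : ∀ v, inner ℝ n (P v) = (0 : ℝ) := by
    intro v
    simp only [P]
    rw [inner_sub_right, inner_smul_right, hnin, mul_one, sub_self]
  have hPyth : ∀ v : E3, ‖v‖ ^ 2 = ‖P v‖ ^ 2 + (inner ℝ n v : ℝ) ^ 2 := by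
    intro v
    have e : v = P v + (inner ℝ n v : ℝ) • n := by simp [P]
    have h2 : inner ℝ (P v) ((inner ℝ n v : ℝ) • n) = (0 : ℝ) := by
      rw [inner_smul_right, real_inner_comm n (P v), hPn, mul_zero]
    conv_lhs => rw [e]
    rw [norm_add_sq_real, h2, norm_smul, hnn, Real.norm_eq_abs, mul_one, sq_abs]
    ring
  have hPsmul : ∀ (v : E3) (t : ℝ), P (P v + t • n) = P v := by
    intro v t
    have h1 : inner ℝ n (P v + t • n) = t := by
      rw [inner_add_right, hPn, inner_smul_right, hnin]; ring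
    show (P v + t • n) - (inner ℝ n (P v + t • n) : ℝ) • n = P v
    rw [h1]; abel
  have hin : ∀ (v : E3) (t : ℝ), inner ℝ n (P v + t • n) = t := by
    intro v t
    rw [inner_add_right, hPn, inner_smul_right, hnin]; ring
  have hF₀ : ∀ y, F₀ y = P (y - a) + (‖y - a‖ - r) • n := fun y => rfl
  have hSP : ∀ y, y - a = P (y - a) + S y • n := by
    intro y
    simp [P, S]
  have hnorm : ∀ y, ‖y - a‖ ^ 2 = ‖P (y - a)‖ ^ 2 + S y ^ 2 := fun y => hPyth (y - a)
  let U₁ : Set E3 := {y | 0 < S y}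
  let V₁ : Set E3 := {v | 0 < r + inner ℝ n v ∧ 0 < Q v}
  have hQF : ∀ y, Q (F₀ y) = S y ^ 2 := by
    intro y
    show (r + inner ℝ n (F₀ y)) ^ 2 - ‖P (F₀ y)‖ ^ 2 = S y ^ 2
    rw [hF₀, hin, hPsmul]
    have := hnorm y
    have e : r + (‖y - a‖ - r) = ‖y - a‖ := by ring
    rw [e, this]; ring
  have hFU : MapsTo F₀ U₁ V₁ := by
    intro y hy
    have hy' : 0 < S y := hy
    refine ⟨?_, ?_⟩
    · rw [hF₀, hin]
      have h1 : 0 < ‖y - a‖ ^ 2 := by
        rw [hnorm y]; positivity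
      have h2 : 0 < ‖y - a‖ := by
        by_contra hc
        have : ‖y - a‖ = 0 := le_antisymm (not_lt.1 hc) (norm_nonneg _)
        rw [this] at h1
        norm_num at h1
      linarith
    · rw [hQF]; positivity
  have hSG : ∀ v, S (G₀ v) = Real.sqrt (Q v) := by
    intro v
    show inner ℝ n (a + P v + Real.sqrt (Q v) • n - a) = Real.sqrt (Q v)
    have e : a + P v + Real.sqrt (Q v) • n - a = P v + Real.sqrt (Q v) • n := by abel
    rw [e, hin]
  have hGV : MapsTo G₀ V₁ U₁ := by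
    intro v hv
    show 0 < S (G₀ v)
    rw [hSG]
    exact Real.sqrt_pos.2 hv.2
  have hGF : LeftInvOn G₀ F₀ U₁ := by
    intro y hy
    have hy' : 0 < S y := hy
    show a + P (F₀ y) + Real.sqrt (Q (F₀ y)) • n = y
    rw [hQF, Real.sqrt_sq hy'.le, hF₀, hPsmul, add_assoc, ← hSP]
    abel
  have hFG : LeftInvOn F₀ G₀ V₁ := by
    intro v hv
    have e : G₀ v - a = P v + Real.sqrt (Q v) • n := by
      show a + P v + Real.sqrt (Q v) • n - a = _
      abel
    have h1 : ‖G₀ v - a‖ = r + inner ℝ n v := by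
      have h2 : ‖G₀ v - a‖ ^ 2 = (r + inner ℝ n v) ^ 2 := by
        rw [hnorm, hSG, Real.sq_sqrt hv.2.le, e, hPsmul]
        show ‖P v‖ ^ 2 + ((r + inner ℝ n v) ^ 2 - ‖P v‖ ^ 2) = _
        ring
      have h3 := hv.1
      exact (pow_left_inj₀ (norm_nonneg _) h3.le (by norm_num)).1 h2
    rw [hF₀, h1, e, hPsmul]
    have : r + inner ℝ n v - r = inner ℝ n v := by ring
    rw [this]
    simp [P]
  have hScont : Continuous S := by fun_prop
  have hPcd : ContDiff ℝ ∞ P := by
    show ContDiff ℝ ∞ (fun v : E3 => v - (inner ℝ n v : ℝ) • n)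
    exact contDiff_id.sub ((contDiff_const.inner ℝ contDiff_id).smul contDiff_const)
  have hQcd : ContDiff ℝ ∞ Q := by
    show ContDiff ℝ ∞ (fun v : E3 => (r + inner ℝ n v) ^ 2 - ‖P v‖ ^ 2)
    exact ((contDiff_const.add (contDiff_const.inner ℝ contDiff_id)).pow 2).sub
      (hPcd.norm_sq ℝ)
  have hU₁ : IsOpen U₁ := isOpen_lt continuous_const hScont
  have hV₁ : IsOpen V₁ := by
    have hc : Continuous (fun v : E3 => r + inner ℝ n v) := by fun_prop
    exact (isOpen_lt continuous_const hc).inter (isOpen_lt continuous_const hQcd.continuous)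
  have hF₀cd : ContDiffOn ℝ ∞ F₀ U₁ := by
    intro y hy
    have hy' : 0 < S y := hy
    have hne : y - a ≠ 0 := by
      intro h0
      have : S y = 0 := by
        show inner ℝ n (y - a) = (0 : ℝ)
        rw [h0, inner_zero_right]
      linarith
    apply ContDiffAt.contDiffWithinAt
    show ContDiffAt ℝ ∞ (fun y : E3 => P (y - a) + (‖y - a‖ - r) • n) y
    have h1 : ContDiffAt ℝ ∞ (fun y : E3 => y - a) y := contDiffAt_id.sub contDiffAt_const
    have h2 : ContDiffAt ℝ ∞ (fun y : E3 => ‖y - a‖) y := h1.norm ℝ hne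
    exact (hPcd.contDiffAt.comp y h1).add ((h2.sub contDiffAt_const).smul contDiffAt_const)
  have hG₀cd : ContDiffOn ℝ ∞ G₀ V₁ := by
    intro v hv
    apply ContDiffAt.contDiffWithinAt
    show ContDiffAt ℝ ∞ (fun v : E3 => a + P v + Real.sqrt (Q v) • n) v
    exact (contDiffAt_const.add hPcd.contDiffAt).add
      ((hQcd.contDiffAt.sqrt hv.2.ne').smul contDiffAt_const)
  have hSx : S x = r := by
    show inner ℝ n (x - a) = r
    rw [hxan, inner_smul_right, hnin, mul_one]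
  have hF₀x : F₀ x = 0 := by
    show (x - a) - S x • n + (‖x - a‖ - r) • n = 0
    rw [hSx, hxa, hxan]
    simp
  have hder : HasFDerivAt F₀ (ContinuousLinearMap.id ℝ E3) x := by
    have h1 : HasFDerivAt (fun y : E3 => y - a) (ContinuousLinearMap.id ℝ E3) x :=
      (hasFDerivAt_id x).sub_const a
    have h2 : HasFDerivAt (fun y : E3 => ‖y - a‖ ^ 2)
        (2 • (innerSL ℝ (x - a)).comp (ContinuousLinearMap.id ℝ E3)) x := h1.norm_sq
    have h3 := h2.sqrt (by rw [hxa]; positivity)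
    have h4 : (fun y : E3 => Real.sqrt (‖y - a‖ ^ 2)) = fun y => ‖y - a‖ := by
      funext y
      exact Real.sqrt_sq (norm_nonneg _)
    rw [h4] at h3
    have h5 : HasFDerivAt (fun y : E3 => ‖y - a‖) (innerSL ℝ n) x := by
      refine h3.congr_fderiv ?_
      refine ContinuousLinearMap.ext fun v => ?_
      rw [hxa, Real.sqrt_sq hr.le]
      have e : inner ℝ (x - a) v = r * inner ℝ n v := by
        rw [hxan, real_inner_smul_left]
      show 1 / (2 * r) * ((2 : ℕ) • (inner ℝ (x - a) v : ℝ)) = inner ℝ n v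
      rw [e, nsmul_eq_mul, Nat.cast_ofNat]
      field_simp
    have h6 : HasFDerivAt S (innerSL ℝ n) x :=
      ((innerSL ℝ n).hasFDerivAt.comp x h1).congr_fderiv (ContinuousLinearMap.comp_id _)
    have h7 := (h1.sub (h6.smul_const n)).add ((h5.sub_const r).smul_const n)
    refine h7.congr_fderiv ?_
    refine ContinuousLinearMap.ext fun v => ?_
    simp
  -- assemble
  have hxU : x ∈ U₁ ∩ ball x δ := ⟨by show 0 < S x; rw [hSx]; exact hr, mem_ball_self hδ⟩
  refine ⟨U₁ ∩ ball x δ, L.symm ⁻¹' (V₁ ∩ G₀ ⁻¹' ball x δ), L ∘ F₀, G₀ ∘ L.symm, L,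
    hU₁.inter isOpen_ball, ?_, hxU, ?_, ?_, ?_, ?_, ?_, ?_, ?_, ?_, ?_⟩
  · exact (hG₀cd.continuousOn.isOpen_inter_preimage hV₁ isOpen_ball).preimage L.symm.continuous
  · rintro y ⟨hy1, hy2⟩
    refine ⟨?_, ?_⟩
    · simpa using hFU hy1
    · show G₀ (L.symm (L (F₀ y))) ∈ ball x δ
      rw [L.symm_apply_apply, hGF hy1]
      exact hy2
  · rintro v ⟨hv1, hv2⟩
    exact ⟨hGV hv1, hv2⟩
  · rintro y ⟨hy1, hy2⟩
    show G₀ (L.symm (L (F₀ y))) = y
    rw [L.symm_apply_apply, hGF hy1]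
  · rintro v ⟨hv1, hv2⟩
    show L (F₀ (G₀ (L.symm v))) = v
    rw [hFG hv1, L.apply_symm_apply]
  · exact L.contDiff.comp_contDiffOn (hF₀cd.mono inter_subset_left)
  · refine hG₀cd.comp L.symm.contDiff.contDiffOn ?_
    rintro v ⟨hv1, hv2⟩
    exact hv1
  · show L (F₀ x) = 0
    rw [hF₀x, map_zero]
  · have h8 := (L.toContinuousLinearEquiv : E3 →L[ℝ] E3).hasFDerivAt.comp x hder
    simpa using h8
  · rintro y ⟨hy1, hy2⟩
    rw [hM y hy2]
    show _ ↔ (L (F₀ y)) 2 = 0
    rw [coord_eq_inner L n hL, hF₀, hin, mem_sphere_iff_norm, sub_eq_zero]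

end Pool.Agent.J6H68.Kusner
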